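import Pool.Agent.Helper25_CON.PDLem

/-!
Squad CON: module H_A
-/

noncomputable section

namespace Pool.Agent.CON.H56

open Pool.Agent.CON

section
variable {M : Type} [AddCommGroup M] {b : M → M → ℤ} {k : ℕ} {C : Fin k → Set M}
  {s : Fin k → ℤ} {r : Fin k → ℕ}

theorem sum_split (i0 : Fin k) (T : Finset (Fin k)) (hT : i0 ∉ T) (A : ℤ) (g : Fin k → ℤ) :
    ∑ i, (if i = i0 then A else if i ∈ T then g i else 0) = A + ∑ i ∈ T, g i := by
  have h : ∀ i : Fin k, (if i = i0 then A else if i ∈ T then g i else 0) =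
      (if i = i0 then A else 0) + (if i ∈ T then g i else 0) := by
    intro i
    by_cases h1 : i = i0
    · subst h1
      simp [hT]
    · simp [h1]
  rw [Finset.sum_congr rfl fun i _ => h i, Finset.sum_add_distrib]
  simp

/-- assembly of a bad neighbour -/
theorem asm (hNOR : E_NOR) (hb : PD b) (hC : Comps b C s r) (i0 : Fin k) (X : M) (J : ℤ)
    (hX : X ∈ AddSubgroup.closure (C i0)) (hJ : 0 ≤ J) (hJB : JB b (C i0) X J)
    (hodd : ∃ y ∈ AddSubgroup.closure (C i0), ¬ (2 : ℤ) ∣ b X y)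
    (T : Finset (Fin k)) (hT : i0 ∉ T) (xT : Fin k → M) (jT : Fin k → ℤ)
    (h1 : ∀ i ∈ T, xT i ∈ AddSubgroup.closure (C i)) (h2 : ∀ i ∈ T, 0 ≤ jT i)
    (h3 : ∀ i ∈ T, JB b (C i) (xT i) (jT i)) (h5 : 5 ≤ J + ∑ i ∈ T, jT i)
    (h4 : (4 : ℤ) ∣ b X X + ∑ i ∈ T, b (xT i) (xT i)) : Bad b := by
  classical
  set x : Fin k → M := fun i => if i = i0 then X else if i ∈ T then xT i else 0 with hx
  set j : Fin k → ℤ := fun i => if i = i0 then J else if i ∈ T then jT i else 0 with hj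
  have hxc : ∀ i, x i ∈ AddSubgroup.closure (C i) := by
    intro i
    simp only [hx]
    split_ifs with ha hb'
    · rw [ha]; exact hX
    · exact h1 i hb'
    · exact AddSubgroup.zero_mem _
  refine hNOR M b k C s r x j hb hC hxc ?_ ?_ ?_ ?_ ?_
  · intro i
    simp only [hj]
    split_ifs with ha hb'
    · exact hJ
    · exact h2 i hb'
    · exact le_refl _
  · intro i hi
    simp only [hj, hx] at hi ⊢
    split_ifs with ha hb'
    · rw [ha]; exact hJB
    · exact h3 i hb'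
    · rw [if_neg ha, if_neg hb'] at hi
      exact absurd rfl hi
  · rw [hj, sum_split i0 T hT]
    exact h5
  · rw [hC.sum_norm hb hxc]
    have e : ∀ i, b (x i) (x i) = if i = i0 then b X X else if i ∈ T then b (xT i) (xT i) else 0 := by
      intro i
      simp only [hx]
      split_ifs with ha hb'
      · rfl
      · rfl
      · exact hb.zero_left _
    rw [Finset.sum_congr rfl fun i _ => e i, sum_split i0 T hT]
    exact h4
  · obtain ⟨y, hy, hy'⟩ := hodd
    refine ⟨y, ?_⟩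
    rw [hC.sum_comp hb hxc hy]
    simpa [hx] using hy'

theorem closure_root {i : Fin k} {α : M} (h : α ∈ C i) : α ∈ AddSubgroup.closure (C i) :=
  AddSubgroup.subset_closure h

theorem JB.root_even (hJ2 : E_J2) (hN2 : E_N2) (hb : PD b) (hC : Comps b C s r) {i : Fin k} {α : M}
    (h : α ∈ C i) (hs : (2 : ℤ) ∣ s i) : JB b (C i) α 2 := by
  apply hJ2 M b (C i) α hb (closure_root h) ((hN2 M b (C i) (s i) hb (hC.irr i)).1 α h)
  rw [(hC.irr i).norm α h]
  obtain ⟨c, hc⟩ := hs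
  exact ⟨c, by rw [hc]; ring⟩

theorem JB.root_one (hJ1 : E_J1) (hN2 : E_N2) (hb : PD b) (hC : Comps b C s r) {i : Fin k} {α : M}
    (h : α ∈ C i) : JB b (C i) α 1 :=
  hJ1 M b (C i) α hb (closure_root h) ((hN2 M b (C i) (s i) hb (hC.irr i)).1 α h)

theorem sum_odd (T : Finset (Fin k)) (h : ∀ i ∈ T, ¬ (2 : ℤ) ∣ s i) :
    (2 : ℤ) ∣ ∑ i ∈ T, s i - (T.card : ℤ) := by
  classical
  induction T using Finset.induction_on with
  | empty => simp
  | insert a T ha ih =>
    rw [Finset.sum_insert ha, Finset.card_insert_of_notMem ha]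
    have h1 := ih fun i hi => h i (Finset.mem_insert_of_mem hi)
    have h2 := h a (Finset.mem_insert_self a T)
    push_cast
    omega

/-- assembly with roots of even components and of odd components -/
theorem asmR (hNOR : E_NOR) (hJ1 : E_J1) (hJ2 : E_J2) (hN2 : E_N2) (hb : PD b)
    (hC : Comps b C s r) (i0 : Fin k) (X : M) (J : ℤ)
    (hX : X ∈ AddSubgroup.closure (C i0)) (hJ : 0 ≤ J) (hJB : JB b (C i0) X J)
    (hodd : ∃ y ∈ AddSubgroup.closure (C i0), ¬ (2 : ℤ) ∣ b X y)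
    (TE TS : Finset (Fin k)) (hE : ∀ i ∈ TE, (2 : ℤ) ∣ s i) (hS : ∀ i ∈ TS, ¬ (2 : ℤ) ∣ s i)
    (hi0 : ¬ (2 : ℤ) ∣ s i0) (hiS : i0 ∉ TS)
    (h5 : 5 ≤ J + 2 * TE.card + TS.card)
    (h4 : (4 : ℤ) ∣ b X X + 2 * TS.card) : Bad b := by
  classical
  have hd : Disjoint TE TS := by
    rw [Finset.disjoint_left]
    intro i h1 h2
    exact hS i h2 (hE i h1)
  have hiE : i0 ∉ TE := fun h => hi0 (hE i0 h)
  choose ρ hρ using fun i => (hC.irr i).ne
  refine asm hNOR hb hC i0 X J hX hJ hJB hodd (TE ∪ TS)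
    (by rw [Finset.mem_union]; exact fun h => h.elim hiE hiS)
    ρ (fun i => if (2 : ℤ) ∣ s i then 2 else 1) (fun i _ => closure_root (hρ i)) ?_ ?_ ?_ ?_
  · intro i _
    split_ifs <;> norm_num
  · intro i _
    split_ifs with h
    · exact JB.root_even hJ2 hN2 hb hC (hρ i) h
    · exact JB.root_one hJ1 hN2 hb hC (hρ i)
  · rw [Finset.sum_union hd]
    have e1 : ∑ i ∈ TE, (if (2 : ℤ) ∣ s i then (2 : ℤ) else 1) = 2 * TE.card := by
      rw [Finset.sum_congr rfl fun i hi => if_pos (hE i hi), Finset.sum_const, nsmul_eq_mul]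
      ring
    have e2 : ∑ i ∈ TS, (if (2 : ℤ) ∣ s i then (2 : ℤ) else 1) = TS.card := by
      rw [Finset.sum_congr rfl fun i hi => if_neg (hS i hi), Finset.sum_const, nsmul_eq_mul]
      ring
    rw [e1, e2]
    linarith
  · rw [Finset.sum_union hd]
    have e1 : (4 : ℤ) ∣ ∑ i ∈ TE, b (ρ i) (ρ i) := by
      apply Finset.dvd_sum
      intro i hi
      rw [(hC.irr i).norm _ (hρ i)]
      obtain ⟨c, hc⟩ := hE i hi
      exact ⟨c, by rw [hc]; ring⟩
    have e2 : ∑ i ∈ TS, b (ρ i) (ρ i) = 2 * ∑ i ∈ TS, s i := by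
      rw [Finset.mul_sum]
      exact Finset.sum_congr rfl fun i _ => (hC.irr i).norm _ (hρ i)
    have e3 := sum_odd (s := s) TS hS
    rw [e2]
    omega

theorem rk_mono {C : Set M} {m n : ℕ} (h : n ≤ m) (hm : Rk C m) : Rk C n := by
  obtain ⟨c, h1, h2⟩ := hm
  exact ⟨fun i => c (Fin.castLE h i), fun i => h1 _, h2.comp _ (Fin.castLE_injective h)⟩

end

theorem h_A (hNOR : E_NOR) (hJ1 : E_J1) (hJ2 : E_J2) (hJ4 : E_J4) (hN2 : E_N2) (hORT : E_ORT)
    (hBIG : E_BIG) : H_A := by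
  classical
  intro M _ _ b k C s r i0 hb hC hr hbg hother
  obtain ⟨hs0, hcap⟩ := hbg
  -- the capable vector
  obtain ⟨X, hX, hX4, hXodd⟩ := hcap
  have hXJ : JB b (C i0) X 2 :=
    hJ2 M b (C i0) X hb hX ((hN2 M b (C i0) (s i0) hb (hC.irr i0)).2.2 X hX hXodd) hX4
  set E : Finset (Fin k) := Finset.univ.filter fun i => (2 : ℤ) ∣ s i with hEdef
  set S : Finset (Fin k) := Finset.univ.filter fun i => i ≠ i0 ∧ ¬ (2 : ℤ) ∣ s i with hSdef
  have hE : ∀ i ∈ E, (2 : ℤ) ∣ s i := fun i hi => (Finset.mem_filter.1 hi).2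
  have hS : ∀ i ∈ S, ¬ (2 : ℤ) ∣ s i := fun i hi => (Finset.mem_filter.1 hi).2.2
  have hiS : i0 ∉ S := fun h => (Finset.mem_filter.1 h).2.1 rfl
  have hiE : i0 ∉ E := fun h => hs0 (hE i0 h)
  have hSr : ∀ i ∈ S, r i ≤ 1 := by
    intro i hi
    rcases hother i (Finset.mem_filter.1 hi).2.1 with h | h
    · exact h.2.2
    · exact absurd h (hS i hi)
  have hd : Disjoint E S := by
    rw [Finset.disjoint_left]
    intro i h1 h2
    exact hS i h2 (hE i h1)
  have hsum : ∑ i, r i = r i0 + ∑ i ∈ E, r i + ∑ i ∈ S, r i := by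
    have hu : (Finset.univ : Finset (Fin k)) = insert i0 (E ∪ S) := by
      ext i
      simp only [Finset.mem_univ, Finset.mem_insert, Finset.mem_union, true_iff]
      by_cases h1 : i = i0
      · exact Or.inl h1
      · right
        by_cases h2 : (2 : ℤ) ∣ s i
        · exact Or.inl (Finset.mem_filter.2 ⟨Finset.mem_univ _, h2⟩)
        · exact Or.inr (Finset.mem_filter.2 ⟨Finset.mem_univ _, h1, h2⟩)
    rw [hu, Finset.sum_insert (by rw [Finset.mem_union]; exact fun h => h.elim hiE hiS),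
      Finset.sum_union hd, add_assoc]
  have hSsum : ∑ i ∈ S, r i ≤ S.card := by
    have := Finset.sum_le_sum hSr
    simpa using this
  have big : ∀ m : ℕ, 8 ≤ m → Even m → m + 1 ≤ r i0 → ∃ x ∈ AddSubgroup.closure (C i0),
      (4 : ℤ) ∣ b x x - m ∧ (∃ y ∈ AddSubgroup.closure (C i0), ¬ (2 : ℤ) ∣ b x y) ∧
      JB b (C i0) x (m / 2) := by
    intro m h8 hm hr0
    exact hBIG M b (C i0) (s i0) m hb (hC.irr i0) hs0 h8 hm (rk_mono hr0 (hC.rk i0))
  -- sub-finsets of given size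
  have sub : ∀ (F : Finset (Fin k)) (m : ℕ), m ≤ F.card → ∃ T ⊆ F, T.card = m := fun F m h =>
    Finset.exists_subset_card_eq h
  by_cases hE2 : 2 ≤ E.card
  · obtain ⟨T, hT, hTc⟩ := sub E 2 hE2
    refine asmR hNOR hJ1 hJ2 hN2 hb hC i0 X 2 hX (by norm_num) hXJ hXodd T ∅
      (fun i hi => hE i (hT hi)) (by simp) hs0 (by simp) ?_ ?_
    · rw [hTc]; norm_num
    · simpa using hX4
  by_cases hE1 : E.card = 1
  · obtain ⟨e, he⟩ := Finset.card_eq_one.1 hE1
    have hee : e ∈ E := by rw [he]; exact Finset.mem_singleton_self e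
    by_cases hS2 : 2 ≤ S.card
    · obtain ⟨T, hT, hTc⟩ := sub S 2 hS2
      refine asmR hNOR hJ1 hJ2 hN2 hb hC i0 X 2 hX (by norm_num) hXJ hXodd E T
        hE (fun i hi => hS i (hT hi)) hs0 (fun h => hiS (hT h)) ?_ ?_
      · rw [hTc, hE1]; norm_num
      · rw [hTc]
        have := hX4
        push_cast
        omega
    by_cases hR : Rk (C e) 3
    · obtain ⟨α, hα, β, hβ, hαβ⟩ := hORT M b (C e) (s e) hb (hC.irr e) hR
      have hJ := hJ4 M b (C e) (s e) α β hb (hC.irr e) (hE e hee) hα hβ hαβ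
      have hne : i0 ≠ e := fun h => hiE (h ▸ hee)
      refine asm hNOR hb hC i0 X 2 hX (by norm_num) hXJ hXodd {e}
        (by rw [Finset.mem_singleton]; exact hne) (fun _ => α + β) (fun _ => 4) ?_ ?_ ?_ ?_ ?_
      · intro i hi
        rw [Finset.mem_singleton.1 hi]
        exact AddSubgroup.add_mem _ (closure_root hα) (closure_root hβ)
      · intro i _; norm_num
      · intro i hi
        rw [Finset.mem_singleton.1 hi]
        exact hJ
      · simp
      · rw [Finset.sum_singleton, hb.add_left, hb.add_right, hb.add_right, hαβ, hb.symm β α, hαβ,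
          (hC.irr e).norm α hα, (hC.irr e).norm β hβ]
        obtain ⟨c, hc⟩ := hE e hee
        have := hX4
        omega
    · have hre : r e ≤ 2 := by
        by_contra h
        exact hR (rk_mono (by omega) (hC.rk e))
      have hr0 : 10 ≤ r i0 := by
        rw [hsum, he, Finset.sum_singleton] at hr
        omega
      obtain ⟨x, hx, hx4, hxo, hxJ⟩ := big 8 le_rfl (by decide) (by omega)
      refine asmR hNOR hJ1 hJ2 hN2 hb hC i0 x ((8 : ℕ) / 2 : ℤ) hx (by norm_num) hxJ hxo E ∅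
        hE (by simp) hs0 (by simp) ?_ ?_
      · rw [hE1]; norm_num
      · push_cast at hx4 ⊢
        simp only [Finset.card_empty, Nat.cast_zero]
        omega
  have hE0 : E.card = 0 := by omega
  have hE0' : E = ∅ := Finset.card_eq_zero.1 hE0
  rw [hE0', Finset.sum_empty] at hsum
  by_cases hS4 : 4 ≤ S.card
  · obtain ⟨T, hT, hTc⟩ := sub S 4 hS4
    refine asmR hNOR hJ1 hJ2 hN2 hb hC i0 X 2 hX (by norm_num) hXJ hXodd ∅ T
      (by simp) (fun i hi => hS i (hT hi)) hs0 (fun h => hiS (hT h)) ?_ ?_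
    · rw [hTc]; norm_num
    · rw [hTc]
      have := hX4
      push_cast
      omega
  by_cases hS2 : 2 ≤ S.card
  · obtain ⟨T, hT, hTc⟩ := sub S 2 hS2
    obtain ⟨x, hx, hx4, hxo, hxJ⟩ := big 8 le_rfl (by decide) (by omega)
    refine asmR hNOR hJ1 hJ2 hN2 hb hC i0 x ((8 : ℕ) / 2 : ℤ) hx (by norm_num) hxJ hxo ∅ T
      (by simp) (fun i hi => hS i (hT hi)) hs0 (fun h => hiS (hT h)) ?_ ?_
    · rw [hTc]; norm_num
    · rw [hTc]
      push_cast at hx4 ⊢
      omega
  by_cases hS1 : S.card = 1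
  · obtain ⟨x, hx, hx4, hxo, hxJ⟩ := big 10 (by norm_num) (by decide) (by omega)
    refine asmR hNOR hJ1 hJ2 hN2 hb hC i0 x ((10 : ℕ) / 2 : ℤ) hx (by norm_num) hxJ hxo ∅ S
      (by simp) hS hs0 hiS ?_ ?_
    · rw [hS1]; norm_num
    · rw [hS1]
      push_cast at hx4 ⊢
      omega
  · have hS0 : S.card = 0 := by omega
    obtain ⟨x, hx, hx4, hxo, hxJ⟩ := big 12 (by norm_num) (by decide) (by omega)
    refine asmR hNOR hJ1 hJ2 hN2 hb hC i0 x ((12 : ℕ) / 2 : ℤ) hx (by norm_num) hxJ hxo ∅ ∅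
      (by simp) (by simp) hs0 (by simp) ?_ ?_
    · norm_num
    · push_cast at hx4 ⊢
      simp only [Finset.card_empty, Nat.cast_zero]
      omega

end Pool.Agent.CON.H56

end
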