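import Pool.Agent.Helper25_CON.Stmts

/-!
Squad CON: module U_RED (reduction theory of positive definite forms)
-/

noncomputable section

namespace Pool.Agent.CON.H56

open Pool.Agent.CON

section
variable {A : Type} [AddCommGroup A]

/-- a basis from a basis of a quotient by one vector -/
theorem lift_basis (b1 : A) (h1 : ∀ n : ℤ, n • b1 = 0 → n = 0) (m : ℕ)
    (β : Module.Basis (Fin m) ℤ (A ⧸ Submodule.span ℤ {b1})) (x : Fin m → A)
    (hx : ∀ i, (Submodule.mkQ (Submodule.span ℤ {b1})) (x i) = β i) :
    ∃ B : Module.Basis (Fin (m + 1)) ℤ A, B 0 = b1 ∧ ∀ i, B (Fin.succ i) = x i := by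
  set v : Fin (m + 1) → A := Fin.cons b1 x with hv
  have hli : LinearIndependent ℤ v := by
    rw [Fintype.linearIndependent_iff]
    intro g hg
    rw [Fin.sum_univ_succ] at hg
    simp only [hv, Fin.cons_zero, Fin.cons_succ] at hg
    have h2 := congrArg (Submodule.mkQ (Submodule.span ℤ {b1})) hg
    rw [map_add, map_smul, map_sum, map_zero] at h2
    have h3 : (Submodule.mkQ (Submodule.span ℤ {b1})) b1 = 0 := by
      rw [Submodule.mkQ_apply, Submodule.Quotient.mk_eq_zero]
      exact Submodule.mem_span_singleton_self b1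
    simp only [map_smul, hx, h3, smul_zero, zero_add] at h2
    have h4 := Fintype.linearIndependent_iff.1 β.linearIndependent (fun i => g (Fin.succ i)) h2
    have h5 : g 0 • b1 = 0 := by
      have : ∑ i : Fin m, g (Fin.succ i) • x i = 0 :=
        Finset.sum_eq_zero fun i _ => by rw [h4 i, zero_smul]
      rw [this, add_zero] at hg
      exact hg
    intro i
    refine Fin.cases (h1 _ h5) (fun i => h4 i) i
  have hsp : ⊤ ≤ Submodule.span ℤ (Set.range v) := by
    intro y _
    have h2 := β.sum_repr ((Submodule.mkQ (Submodule.span ℤ {b1})) y)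
    have h3 : y - ∑ i, (β.repr ((Submodule.mkQ (Submodule.span ℤ {b1})) y)) i • x i ∈
        Submodule.span ℤ {b1} := by
      rw [← Submodule.Quotient.mk_eq_zero, ← Submodule.mkQ_apply, map_sub, map_sum]
      simp only [map_smul, hx]
      rw [h2, sub_self]
    have h4 : y = (y - ∑ i, (β.repr ((Submodule.mkQ (Submodule.span ℤ {b1})) y)) i • x i) +
      ∑ i, (β.repr ((Submodule.mkQ (Submodule.span ℤ {b1})) y)) i • x i := by abel
    rw [h4]
    refine Submodule.add_mem _ ?_ (Submodule.sum_mem _ fun i _ => Submodule.smul_mem _ _ ?_)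
    · refine Submodule.span_mono ?_ h3
      rintro _ rfl
      exact ⟨0, by simp [hv]⟩
    · exact Submodule.subset_span ⟨Fin.succ i, by simp [hv]⟩
  refine ⟨Module.Basis.mk hli hsp, ?_, fun i => ?_⟩
  · rw [Module.Basis.mk_apply]; simp [hv]
  · rw [Module.Basis.mk_apply]; simp [hv]

/-- Gram determinant of a basis -/
def gram (P : A → A → ℝ) {m : ℕ} (v : Fin m → A) : Matrix (Fin m) (Fin m) ℝ :=
  Matrix.of fun i j => P (v i) (v j)

variable {P : A → A → ℝ} (hadd : ∀ x y z, P (x + y) z = P x z + P y z)
  (hsym : ∀ x y, P x y = P y x)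

include hadd in
theorem P_zero (z : A) : P 0 z = 0 := by
  have := hadd 0 0 z
  rw [add_zero] at this
  linarith

/-- `P` as a homomorphism in the first variable -/
def phom (z : A) : A →+ ℝ where
  toFun x := P x z
  map_zero' := P_zero hadd z
  map_add' x y := hadd x y z

include hadd in
theorem P_zsmul (n : ℤ) (x z : A) : P (n • x) z = n * P x z := by
  have := map_zsmul (phom hadd z) n x
  simpa [phom] using this

include hadd in
theorem P_sum {ι : Type*} (s : Finset ι) (f : ι → A) (z : A) :
    P (∑ i ∈ s, f i) z = ∑ i ∈ s, P (f i) z := by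
  exact map_sum (phom hadd z) f s

include hadd hsym in
theorem P_add_right (x y z : A) : P x (y + z) = P x y + P x z := by
  rw [hsym, hadd, hsym y, hsym z]

include hadd hsym in
theorem P_zsmul_right (n : ℤ) (x z : A) : P x (n • z) = n * P x z := by
  rw [hsym, P_zsmul hadd, hsym z]

include hadd hsym in
theorem P_sum_right {ι : Type*} (s : Finset ι) (f : ι → A) (z : A) :
    P z (∑ i ∈ s, f i) = ∑ i ∈ s, P z (f i) := by
  rw [hsym, P_sum hadd]
  exact Finset.sum_congr rfl fun i _ => hsym _ _

include hadd hsym in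
/-- the Gram determinant does not depend on the basis -/
theorem gram_det {m : ℕ} (b b' : Module.Basis (Fin m) ℤ A) :
    (gram P b).det = (gram P b').det := by
  set T : Matrix (Fin m) (Fin m) ℤ := b.toMatrix b' with hT
  have h1 : ∀ j, b' j = ∑ i, T i j • b i := fun j => (b.sum_toMatrix_smul_self b' j).symm
  have h2 : gram P b' = (T.map (fun n : ℤ => (n : ℝ))).transpose * gram P b *
      T.map (fun n : ℤ => (n : ℝ)) := by
    ext i j
    rw [Matrix.mul_apply]
    simp only [Matrix.mul_apply, gram, Matrix.of_apply, Matrix.transpose_apply, Matrix.map_apply]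
    rw [h1 i, h1 j, P_sum_right hadd hsym]
    refine Finset.sum_congr rfl fun l _ => ?_
    rw [P_zsmul_right hadd hsym, P_sum hadd, mul_comm]
    congr 1
    exact Finset.sum_congr rfl fun l' _ => P_zsmul hadd _ _ _
  have h3 : T.det * (b'.toMatrix b).det = 1 := by
    rw [hT, ← Matrix.det_mul, b.toMatrix_mul_toMatrix_flip, Matrix.det_one]
  have h4 : T.det * T.det = 1 := by
    rcases Int.isUnit_iff.1 (IsUnit.of_mul_eq_one _ h3) with h | h <;> rw [h] <;> norm_num
  have h5 : (T.map (fun n : ℤ => (n : ℝ))).det = (T.det : ℝ) :=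
    (Int.cast_det T).symm
  rw [h2, Matrix.det_mul, Matrix.det_mul, Matrix.det_transpose, h5]
  have h6 : (T.det : ℝ) * (T.det : ℝ) = 1 := by exact_mod_cast h4
  calc (gram P b).det = ((T.det : ℝ) * (T.det : ℝ)) * (gram P b).det := by rw [h6, one_mul]
    _ = _ := by ring

/-- Schur complement of the first entry -/
theorem det_schur {m : ℕ} (G : Matrix (Fin (m + 1)) (Fin (m + 1)) ℝ) (h : G 0 0 ≠ 0) :
    G.det = G 0 0 * (Matrix.of fun i j : Fin m => G i.succ j.succ -
      G i.succ 0 * G 0 j.succ / G 0 0).det := by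
  set N : Matrix (Fin (m + 1)) (Fin (m + 1)) ℝ := Matrix.of fun i j =>
    G i j - (if i = 0 then 0 else G i 0 / G 0 0) * G 0 j with hN
  have h1 : G.det = N.det := by
    apply Matrix.det_eq_of_forall_row_eq_smul_add_const
      (fun i => if i = 0 then 0 else G i 0 / G 0 0) 0 (by simp)
    intro i j
    simp only [hN, Matrix.of_apply, if_true]
    ring
  rw [h1, Matrix.det_succ_column_zero, Fin.sum_univ_succ]
  have h2 : ∀ i : Fin m, N i.succ 0 = 0 := by
    intro i
    simp only [hN, Matrix.of_apply, Fin.succ_ne_zero, if_false]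
    field_simp
    ring
  have h3 : N 0 0 = G 0 0 := by simp [hN]
  rw [Finset.sum_eq_zero (fun i _ => by rw [h2 i]; ring), h3]
  simp only [Fin.val_zero, pow_zero, one_mul, add_zero]
  congr 2
  ext i j
  simp only [hN, Matrix.submatrix_apply, Matrix.of_apply, Fin.succAbove_zero, Fin.succ_ne_zero,
    if_false]
  ring

end

/-- one step of the reduction -/
theorem u_RED : U_RED := by
  intro m
  induction m with
  | zero =>
    intro c D _
    exact ⟨0, fun A _ P b _ _ _ _ _ => ⟨b, fun i => i.elim0⟩⟩
  | succ m ih =>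
    intro c D hc
    obtain ⟨R', hR'⟩ := ih (3 * c / 4) (|D| / c) (by positivity)
    refine ⟨|D| + 2 * |R'|, ?_⟩
    intro A _ P b hadd hsym hfin hpos hdet
    -- a minimal vector
    have hb0 : b 0 ≠ 0 := b.ne_zero 0
    obtain ⟨b1, ⟨hb1, -⟩, hmin⟩ := Set.exists_min_image
      {x : A | x ≠ 0 ∧ P x x ≤ P (b 0) (b 0)} (fun x => P x x)
      ((hfin (P (b 0) (b 0))).subset fun x hx => hx.2) ⟨b 0, hb0, le_rfl⟩
    have hmin' : ∀ x : A, x ≠ 0 → P b1 b1 ≤ P x x := by
      intro x hx
      by_cases h : P x x ≤ P (b 0) (b 0)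
      · exact hmin x ⟨hx, h⟩
      · exact (hmin (b 0) ⟨hb0, le_rfl⟩).trans (not_le.1 h).le
    set p : ℝ := P b1 b1 with hp
    have hcp : c ≤ p := hpos b1 hb1
    have hp0 : 0 < p := hc.trans_le hcp
    have htf : ∀ n : ℤ, n • b1 = 0 → n = 0 := by
      intro n hn
      have h1 : P (n • b1) b1 = 0 := by rw [hn, P_zero hadd]
      rw [P_zsmul hadd] at h1
      rcases mul_eq_zero.1 h1 with h2 | h2
      · exact_mod_cast h2
      · exact absurd h2 hp0.ne'
    set W := Submodule.span ℤ {b1} with hW
    set π := Submodule.mkQ W with hπ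
    have hker : ∀ x y : A, π x = π y → ∃ n : ℤ, x = y + n • b1 := by
      intro x y h
      have h1 : x - y ∈ W := by
        rw [← Submodule.Quotient.mk_eq_zero, ← Submodule.mkQ_apply, ← hπ, map_sub, h, sub_self]
      obtain ⟨n, hn⟩ := Submodule.mem_span_singleton.1 h1
      exact ⟨n, by rw [hn]; abel⟩
    have hπb : ∀ n : ℤ, π (n • b1) = 0 := by
      intro n
      rw [hπ, Submodule.mkQ_apply, Submodule.Quotient.mk_eq_zero]
      exact Submodule.smul_mem _ _ (Submodule.mem_span_singleton_self b1)
    -- the form on the quotient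
    have hsurj : Function.Surjective π := Submodule.mkQ_surjective W
    set σ : (A ⧸ W) → A := Function.surjInv hsurj with hσ
    have hσπ : ∀ q, π (σ q) = q := Function.surjInv_eq hsurj
    set g : A → A → ℝ := fun x y => P x y - P x b1 * P y b1 / p with hg
    have hgl : ∀ (x y : A) (n : ℤ), g (x + n • b1) y = g x y := by
      intro x y n
      simp only [hg, hadd, P_zsmul hadd, ← hp]
      rw [hsym b1 y]
      field_simp
      ring
    have hgs : ∀ x y, g x y = g y x := by
      intro x y
      simp only [hg]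
      rw [hsym x y]
      ring
    have hgr : ∀ (x y : A) (n : ℤ), g x (y + n • b1) = g x y := by
      intro x y n
      rw [hgs, hgl, hgs]
    set P' : (A ⧸ W) → (A ⧸ W) → ℝ := fun x y => g (σ x) (σ y) with hP'
    have hP'π : ∀ x y : A, P' (π x) (π y) = g x y := by
      intro x y
      obtain ⟨n, hn⟩ := hker (σ (π x)) x (hσπ _)
      obtain ⟨n', hn'⟩ := hker (σ (π y)) y (hσπ _)
      simp only [hP']
      rw [hn, hn', hgl, hgr]
    have hadd' : ∀ x y z, P' (x + y) z = P' x z + P' y z := by
      intro x y z
      obtain ⟨x, rfl⟩ := hsurj x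
      obtain ⟨y, rfl⟩ := hsurj y
      obtain ⟨z, rfl⟩ := hsurj z
      rw [← map_add, hP'π, hP'π, hP'π]
      simp only [hg, hadd]
      ring
    have hsym' : ∀ x y, P' x y = P' y x := fun x y => hgs _ _
    -- small representatives
    have hrep : ∀ q : A ⧸ W, ∃ x : A, π x = q ∧ P x x ≤ P' q q + p / 4 ∧
        P x x = P' q q + P x b1 ^ 2 / p := by
      intro q
      obtain ⟨y, rfl⟩ := hsurj q
      set t : ℤ := round (P y b1 / p) with ht
      have h1 : π (y + (-t) • b1) = π y := by rw [map_add, hπb, add_zero]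
      have h2 : P (y + (-t) • b1) b1 = P y b1 - t * p := by
        rw [hadd, P_zsmul hadd, ← hp]
        push_cast
        ring
      have h3 : |P y b1 / p - t| ≤ 1 / 2 := abs_sub_round _
      have h4 : |P y b1 - t * p| ≤ p / 2 := by
        have h5 : P y b1 - t * p = (P y b1 / p - t) * p := by field_simp
        rw [h5, abs_mul, abs_of_pos hp0]
        nlinarith
      have h5 : P (y + (-t) • b1) (y + (-t) • b1) = P' (π y) (π y) +
          P (y + (-t) • b1) b1 ^ 2 / p := by
        rw [← h1, hP'π]
        simp only [hg]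
        ring
      refine ⟨y + (-t) • b1, h1, ?_, h5⟩
      rw [h5, h2]
      have h6 : (P y b1 - t * p) ^ 2 ≤ (p / 2) ^ 2 := by
        rw [← sq_abs]
        exact pow_le_pow_left₀ (abs_nonneg _) h4 2
      have h7 : (P y b1 - t * p) ^ 2 / p ≤ p / 4 := by
        rw [div_le_iff₀ hp0]
        nlinarith
      linarith
    have hpos' : ∀ q : A ⧸ W, q ≠ 0 → 3 * p / 4 ≤ P' q q := by
      intro q hq
      obtain ⟨x, hx, hx2, -⟩ := hrep q
      have hx0 : x ≠ 0 := by
        rintro rfl
        rw [map_zero] at hx
        exact hq hx.symm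
      have := hmin' x hx0
      linarith
    have hfin' : ∀ K : ℝ, {q : A ⧸ W | P' q q ≤ K}.Finite := by
      intro K
      refine ((hfin (K + p / 4)).image π).subset ?_
      intro q hq
      obtain ⟨x, hx, hx2, -⟩ := hrep q
      exact ⟨x, by
        have : P' q q ≤ K := hq
        show P x x ≤ K + p / 4
        linarith, hx⟩
    -- the quotient is free
    have : Module.Finite ℤ A := Module.Finite.of_basis b
    have htor : Module.IsTorsionFree ℤ (A ⧸ W) := by
      rw [Module.isTorsionFree_iff_smul_eq_zero]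
      intro n q hnq
      by_contra hcon
      push Not at hcon
      obtain ⟨hn, hq⟩ := hcon
      have h1 : P' (n • q) q = 0 := by rw [hnq, P_zero hadd']
      rw [P_zsmul hadd'] at h1
      rcases mul_eq_zero.1 h1 with h2 | h2
      · exact hn (by exact_mod_cast h2)
      · have := hpos' q hq
        linarith
    have hfree : Module.Free ℤ (A ⧸ W) := inferInstance
    -- its rank
    obtain ⟨β₀⟩ : Nonempty (Module.Basis (Fin m) ℤ (A ⧸ W)) := by
      have β := Module.finBasis ℤ (A ⧸ W)
      obtain ⟨B, -, -⟩ := lift_basis b1 htf _ β (fun i => σ (β i)) (fun i => hσπ _)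
      have h1 := Fintype.card_congr (B.indexEquiv b)
      simp only [Fintype.card_fin] at h1
      have h2 : Module.finrank ℤ (A ⧸ W) = m := by omega
      exact ⟨β.reindex (finCongr h2)⟩
    -- determinants
    have hdetB : ∀ (β : Module.Basis (Fin m) ℤ (A ⧸ W)), p * (gram P' β).det = (gram P b).det := by
      intro β
      obtain ⟨B, hB0, hBs⟩ := lift_basis b1 htf _ β (fun i => σ (β i)) (fun i => hσπ _)
      rw [gram_det hadd hsym b B, det_schur (gram P B) (by
        show P (B 0) (B 0) ≠ 0
        rw [hB0]; exact hp0.ne')]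
      have e0 : gram P B 0 0 = p := by
        show P (B 0) (B 0) = p
        rw [hB0]
      rw [e0]
      congr 2
      ext i j
      simp only [gram, Matrix.of_apply, hBs, hB0]
      simp only [hP', hg]
      rw [hsym b1 (σ (β j))]
    obtain ⟨β, hβ⟩ := hR' (A ⧸ W) P' β₀ hadd' hsym' hfin'
      (fun q hq => by have := hpos' q hq; linarith) (by
        have h1 := hdetB β₀
        have h2 : (gram P b).det ≤ D := hdet
        show (gram P' β₀).det ≤ |D| / c
        have h3 : (gram P' β₀).det = (gram P b).det / p := by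
          rw [← h1]
          field_simp
        rw [h3]
        calc (gram P b).det / p ≤ |D| / p := by
              apply div_le_div_of_nonneg_right _ hp0.le
              exact h2.trans (le_abs_self D)
          _ ≤ |D| / c := div_le_div_of_nonneg_left (abs_nonneg D) hc hcp)
    choose x hx1 hx2 hx3 using hrep
    obtain ⟨B, hB0, hBs⟩ := lift_basis b1 htf _ β (fun i => x (β i)) (fun i => hx1 _)
    have hpb : p ≤ |D| + 4 / 3 * |R'| := by
      rcases Nat.eq_zero_or_pos m with h0 | h0
      · subst h0
        have h1 := hdetB β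
        have h2 : (gram P' β).det = 1 := Matrix.det_isEmpty
        rw [h2, mul_one] at h1
        have h3 : (gram P b).det ≤ D := hdet
        have h4 := le_abs_self D
        have h5 := abs_nonneg R'
        linarith
      · have h1 := hpos' (β ⟨0, h0⟩) (β.ne_zero _)
        have h2 := hβ ⟨0, h0⟩
        have h3 := le_abs_self R'
        have h4 := abs_nonneg D
        linarith
    refine ⟨B, fun i => ?_⟩
    have hR0 := abs_nonneg R'
    have hD0 := abs_nonneg D
    refine Fin.cases ?_ (fun i => ?_) i
    · rw [hB0]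
      linarith
    · rw [hBs]
      have h1 := hx2 (β i)
      have h2 := hβ i
      have h3 := le_abs_self R'
      linarith

end Pool.Agent.CON.H56

end
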